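import Mathlib
import Pool.Agent.W474.Ver.Defs
import Pool.Agent.W474.Ver.Sanity
import Pool.Agent.Y830.VN.Dec

/-!
# The normality conjecture for the Betti numbers of Veronese embeddings fails in all large dimensions

For the Veronese embeddings of `ℙⁿ`, `n = 8` or `n ≥ 10`, and `q = n`, no function `F(d)` rescales
the Betti numbers `k_{p,n}(ℙⁿ, 𝒪(d))` to the Gaussian shape (the theorem `NormalityFails` of this
folder is the case `n = 8`). The variables are divided into three groups of nearly the same size.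
For every interior monomial `u` of degree `d = 2 k` one group has degree at most `k` in `u` and the
two other ones are unbalanced; the monomials of degree `d` which miss this group and have the
same degree `k` in the two other ones form a large block, and a set of monomials of degree
`d` which is the leading set of a cycle with leading coefficient `u` contains less than three
eighths of the block. If the groups have at most `n / 2 - 1` elements then the blocks have at least
about `√r_d` elements, and below the middle the numbers `k_{p,n}` lose at least a fixed factor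
`exp(- C ε)` at the distance `ε √r_d`, for every `ε`, and not only `exp(- ε² / 2)`. If the groups
are smaller (`n = 11`, `n ≥ 13`) the factor even tends to `0`.
-/

set_option autoImplicit false

namespace Pool.Agent.Results.MP_c48073_ag.AllLargeDimensions

open Filter Topology Pool.Agent.W474.Ver Pool.Agent.Y830.VN

lemma h0_ge (n d : ℕ) (hn : 1 ≤ n) : d ≤ n.factorial * h0 n d := by
  refine le_trans ?_ (h0_lower d)
  calc d ≤ d + 1 := Nat.le_succ d
    _ = (d + 1) ^ 1 := (pow_one _).symm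
    _ ≤ (d + 1) ^ n := Nat.pow_le_pow_right (Nat.succ_pos d) hn

lemma tendsto_h0 (n : ℕ) (hn : 1 ≤ n) : Tendsto (fun d => (h0 n d : ℝ)) atTop atTop := by
  have h1 : Tendsto (fun d : ℕ => (d : ℝ) / n.factorial) atTop atTop :=
    tendsto_natCast_atTop_atTop.atTop_div_const (by positivity)
  refine tendsto_atTop_mono (fun d => ?_) h1
  rw [div_le_iff₀ (by positivity)]
  have h : (d : ℝ) ≤ n.factorial * h0 n d := by exact_mod_cast h0_ge n d hn
  linarith

lemma tendsto_sqrt (n : ℕ) (hn : 1 ≤ n) : Tendsto (fun d => √(rr n d)) atTop atTop := by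
  refine Real.tendsto_sqrt_atTop.comp ?_
  exact tendsto_atTop_add_const_right _ _ (tendsto_h0 n hn)

lemma rr_nonneg (n d : ℕ) : 0 ≤ rr n d := by
  have h1 : (1 : ℝ) ≤ h0 n d := by exact_mod_cast h0_pos d
  rw [rr]; linarith

/-- the middle exterior degree on the dual side -/
noncomputable def mid (n d : ℕ) : ℕ := h0 n d / 2

/-- the number of steps -/
noncomputable def ss (n : ℕ) (a : ℝ) (d : ℕ) : ℕ := ⌊a * √(rr n d) / 2⌋₊

lemma ss_le (n : ℕ) {a : ℝ} (ha : 0 ≤ a) (d : ℕ) : (ss n a d : ℝ) ≤ a * √(rr n d) / 2 :=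
  Nat.floor_le (by positivity)

lemma ss_ge (n : ℕ) (a : ℝ) (d : ℕ) : a * √(rr n d) / 2 < ss n a d + 1 := Nat.lt_floor_add_one _

lemma room (n : ℕ) (hn : 1 ≤ n) {a : ℝ} (ha : 0 ≤ a) (ha1 : a ≤ 1) :
    ∀ᶠ d in atTop, mid n d + ss n a d + (n + 1) ≤ h0 n d := by
  filter_upwards [(tendsto_sqrt n hn).eventually_ge_atTop (2 * n + 6)] with d hd
  have h1 := ss_le n ha d
  set x := √(rr n d) with hx
  have hx2 : x ^ 2 = h0 n d - 1 := by
    rw [hx, Real.sq_sqrt (rr_nonneg n d), rr]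
  have hn0 : (0 : ℝ) ≤ n := Nat.cast_nonneg n
  have h2 : a * x / 2 ≤ x / 2 := by nlinarith
  have h3 : (2 * (mid n d : ℝ)) ≤ h0 n d := by
    have : 2 * mid n d ≤ h0 n d := by rw [mid]; omega
    exact_mod_cast this
  have h4 : (mid n d : ℝ) + ss n a d + (n + 1) ≤ h0 n d := by nlinarith
  exact_mod_cast h4

lemma mid_bound (n d : ℕ) (h : mid n d + (n + 1) ≤ h0 n d) :
    |((h0 n d - (n + 1) - mid n d : ℕ) : ℝ) - rr n d / 2| ≤ n + 1 := by
  have h1 : (((h0 n d - (n + 1) - mid n d : ℕ) : ℝ)) = h0 n d - (n + 1) - mid n d := by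
    rw [Nat.cast_sub (by omega), Nat.cast_sub (by omega)]
    push_cast
    ring
  rw [h1, rr, abs_le]
  have h2 : (h0 n d : ℝ) ≤ 2 * mid n d + 1 := by
    have : h0 n d ≤ 2 * mid n d + 1 := by rw [mid]; omega
    exact_mod_cast this
  have h3 : 2 * (mid n d : ℝ) ≤ h0 n d := by
    have : 2 * mid n d ≤ h0 n d := by rw [mid]; omega
    exact_mod_cast this
  have hn0 : (0 : ℝ) ≤ n := Nat.cast_nonneg n
  constructor <;> linarith

lemma lim0 (n : ℕ) (hn : 1 ≤ n) : Tendsto (fun d => (((h0 n d - (n + 1) - mid n d : ℕ) : ℝ) -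
    (rr n d / 2 + 0 * √(rr n d) / 2)) / √(rr n d)) atTop (𝓝 0) := by
  have h9 : Tendsto (fun d => ((n : ℝ) + 1) / √(rr n d)) atTop (𝓝 0) :=
    (tendsto_sqrt n hn).const_div_atTop _
  apply squeeze_zero_norm' _ h9
  filter_upwards [room n hn (a := 0) le_rfl zero_le_one] with d hd
  have hpos : 0 ≤ √(rr n d) := Real.sqrt_nonneg _
  rw [Real.norm_eq_abs, abs_div, abs_of_nonneg hpos]
  apply div_le_div_of_nonneg_right _ hpos
  have e : ((h0 n d - (n + 1) - mid n d : ℕ) : ℝ) - (rr n d / 2 + 0 * √(rr n d) / 2) =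
      ((h0 n d - (n + 1) - mid n d : ℕ) : ℝ) - rr n d / 2 := by ring
  rw [e]
  exact mid_bound n d (by omega)

lemma lim1 (n : ℕ) (hn : 1 ≤ n) {a : ℝ} (ha : 0 ≤ a) (ha1 : a ≤ 1) :
    Tendsto (fun d => (((h0 n d - (n + 1) - mid n d - ss n a d : ℕ) : ℝ) -
    (rr n d / 2 + (-a) * √(rr n d) / 2)) / √(rr n d)) atTop (𝓝 0) := by
  have h9 : Tendsto (fun d => ((n : ℝ) + 2) / √(rr n d)) atTop (𝓝 0) :=
    (tendsto_sqrt n hn).const_div_atTop _
  apply squeeze_zero_norm' _ h9
  filter_upwards [room n hn ha ha1] with d hd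
  have hpos : 0 ≤ √(rr n d) := Real.sqrt_nonneg _
  rw [Real.norm_eq_abs, abs_div, abs_of_nonneg hpos]
  apply div_le_div_of_nonneg_right _ hpos
  have h4 : (((h0 n d - (n + 1) - mid n d - ss n a d : ℕ) : ℝ)) =
      ((h0 n d - (n + 1) - mid n d : ℕ) : ℝ) - ss n a d := by
    rw [Nat.cast_sub (by omega)]
  have h5 := mid_bound n d (by omega)
  have h6 := ss_le n ha d
  have h7 := ss_ge n a d
  rw [abs_le] at h5 ⊢
  rw [h4]
  constructor <;> linarith

/-- the dual description of the Betti numbers -/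
lemma kpq_kap {n d p p' : ℕ} (h : p + (n + 1) + p' = h0 n d) :
    (kpq n d p n : ℝ) = kap n d p' := by
  rw [kap, ← kpq_eq_KK h]

/-- the constant -/
noncomputable def Cn (n : ℕ) : ℝ := 1 / (32 * (n.factorial : ℝ) ^ 2 * 3 ^ n)

lemma Cn_pos (n : ℕ) : 0 < Cn n := by rw [Cn]; positivity

lemma Cn_le (n : ℕ) : Cn n ≤ 1 := by
  rw [Cn, div_le_one (by positivity)]
  have hf : (1 : ℝ) ≤ (n.factorial : ℝ) := by exact_mod_cast Nat.factorial_pos n
  have h3 : (1 : ℝ) ≤ 3 ^ n := one_le_pow₀ (by norm_num)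
  nlinarith [one_le_pow₀ hf (n := 2)]

/-- a lower bound for the total loss in `s ≥ a √r / 8` steps -/
lemma loss (n ε : ℕ) {k : ℕ} (hk : n + 1 ≤ k) {a s : ℝ} (ha : 0 ≤ a)
    (hs : a * √(h0 n (2 * k)) / 8 ≤ s) :
    a * Cn n * √((k : ℝ) ^ ε) ≤ s * yy n ε k := by
  have hH : (1 : ℝ) ≤ h0 n (2 * k) := by exact_mod_cast h0_pos (2 * k)
  have hf : (1 : ℝ) ≤ (n.factorial : ℝ) := by exact_mod_cast Nat.factorial_pos n
  have hk' : (1 : ℝ) ≤ k := by exact_mod_cast (by omega : 1 ≤ k)
  set H : ℝ := (h0 n (2 * k) : ℝ) with hHd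
  have hup : H ≤ 3 ^ n * (k : ℝ) ^ n := by
    have h1 : (n.factorial : ℝ) * H ≤ ((2 * k + n : ℕ) : ℝ) ^ n := by
      rw [hHd]
      exact_mod_cast h0_upper (n := n) (2 * k)
    have h2 : ((2 * k + n : ℕ) : ℝ) ^ n ≤ (3 * k) ^ n := by
      apply pow_le_pow_left₀ (by positivity)
      have : 2 * k + n ≤ 3 * k := by omega
      exact_mod_cast this
    rw [mul_pow] at h2
    nlinarith
  set S := √H with hS
  have hS2 : S ^ 2 = H := by rw [hS]; exact Real.sq_sqrt (by linarith)
  have hS1 : 1 ≤ S := by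
    rw [hS]; exact Real.one_le_sqrt.mpr hH
  have hsq : S ≤ 3 ^ n * √((k : ℝ) ^ n) := by
    rw [hS, Real.sqrt_le_left (by positivity), mul_pow, Real.sq_sqrt (by positivity)]
    refine hup.trans (mul_le_mul_of_nonneg_right ?_ (by positivity))
    rw [← pow_mul]
    exact pow_le_pow_right₀ (by norm_num) (by omega)
  have hyy : yy n ε k = √((k : ℝ) ^ n) * √((k : ℝ) ^ ε) / (4 * (n.factorial : ℝ) ^ 2 * S ^ 2) := by
    rw [yy, pow_add, Real.sqrt_mul (by positivity), hS2]
  have h3 : a * S / 8 * yy n ε k ≤ s * yy n ε k :=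
    mul_le_mul_of_nonneg_right hs (yy_nonneg _ _ _)
  refine le_trans ?_ h3
  rw [hyy, Cn]
  have e1 : a * (1 / (32 * (n.factorial : ℝ) ^ 2 * 3 ^ n)) * √((k : ℝ) ^ ε) =
      (a * √((k : ℝ) ^ ε) / (32 * (n.factorial : ℝ) ^ 2)) * (1 / 3 ^ n) := by
    field_simp
  have e2 : a * S / 8 * (√((k : ℝ) ^ n) * √((k : ℝ) ^ ε) / (4 * (n.factorial : ℝ) ^ 2 * S ^ 2)) =
      (a * √((k : ℝ) ^ ε) / (32 * (n.factorial : ℝ) ^ 2)) * (√((k : ℝ) ^ n) / S) := by
    field_simp
    ring
  rw [e1, e2]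
  apply mul_le_mul_of_nonneg_left _ (by positivity)
  rw [div_le_div_iff₀ (by positivity) (by linarith)]
  linarith

/-- the decay below the middle -/
lemma decay {n ε : ℕ} (hG : ∃ c : Fin (n + 1) → Fin 3, Gd c ε) {k : ℕ} (hk : n + 1 ≤ k)
    {p q : ℕ} (hq : 2 * q + 2 * n + 1 ≤ h0 n (2 * k)) (hpq : p ≤ q) {a : ℝ} (ha : 0 ≤ a)
    (hs : a * √(h0 n (2 * k)) / 8 ≤ (q : ℝ) - p) :
    (kpq n (2 * k) p n : ℝ) ≤
      Real.exp (-(a * Cn n * √((k : ℝ) ^ ε))) * kpq n (2 * k) q n := by
  obtain ⟨c, hc⟩ := hG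
  obtain ⟨s, rfl⟩ : ∃ s, q = p + s := ⟨q - p, by omega⟩
  obtain ⟨p', hp'⟩ : ∃ p', (p + s) + (n + 1) + p' = h0 n (2 * k) :=
    ⟨h0 n (2 * k) - (p + s) - (n + 1), by omega⟩
  rw [kpq_kap hp', kpq_kap (p := p) (p' := p' + s) (by omega)]
  have h1 := iter hc (k := k) (by omega) (p := p') (by omega) s
  refine h1.trans (mul_le_mul_of_nonneg_right ?_ (kap_nonneg _ _ _))
  apply Real.exp_le_exp.mpr
  have h2 := loss n ε hk ha (s := (s : ℝ)) (by push_cast at hs; linarith)
  linarith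

/-- **The normality conjecture of Ein, Erman and Lazarsfeld fails in all large dimensions.**

(1) Let `n = 8` or `n ≥ 10`, and `q = n`. There is no function `F` with
`F(d) k_{p_d,n}(ℙⁿ, 𝒪(d)) → e^{-a²/2}` for every real `a` and every sequence `(p_d)` with
`p_d = r_d/2 + a √r_d/2 + o(√r_d)`.

(2) Let `n = 11` or `n ≥ 13`. For all `a, η > 0`, all large even `d = 2 k` and all `p`, `q` with
`2 q + 2 n ≤ r_d` and `p + a √r_d ≤ q` the inequality
`k_{p,n}(ℙⁿ, 𝒪(d)) ≤ η k_{q,n}(ℙⁿ, 𝒪(d))` holds: on the scale `√r_d` the Betti numbers below the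
middle increase by arbitrarily large factors. -/
theorem result (n : ℕ) :
    ((n = 8 ∨ 10 ≤ n) → ¬ ∃ F : ℕ → ℝ, ∀ (a : ℝ) (p : ℕ → ℕ),
      Tendsto (fun d => ((p d : ℝ) - (rr n d / 2 + a * √(rr n d) / 2)) / √(rr n d)) atTop (𝓝 0) →
      Tendsto (fun d => F d * (kpq n d (p d) n : ℝ)) atTop (𝓝 (Real.exp (-a ^ 2 / 2)))) ∧
    ((n = 11 ∨ 13 ≤ n) → ∀ a : ℝ, 0 < a → ∀ η : ℝ, 0 < η → ∀ᶠ k : ℕ in atTop, ∀ p q : ℕ,
      2 * (q : ℝ) + 2 * n ≤ rr n (2 * k) → (p : ℝ) + a * √(rr n (2 * k)) ≤ q →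
      (kpq n (2 * k) p n : ℝ) ≤ η * kpq n (2 * k) q n) := by
  refine ⟨fun hn => ?_, fun hn a ha η hη => ?_⟩
  · rintro ⟨F, hF⟩
    have hG : ∃ c : Fin (n + 1) → Fin 3, Gd c 0 := exists_Gd (by omega) (by omega)
    have hn1 : 1 ≤ n := by omega
    set a := Cn n with ha
    have ha0 : 0 < a := Cn_pos n
    have ha1 : a ≤ 1 := Cn_le n
    have hsub : Tendsto (fun k : ℕ => 2 * k) atTop atTop :=
      tendsto_atTop_mono (fun l => by simp only [id_eq]; omega) tendsto_id
    have h0' := (hF 0 _ (lim0 n hn1)).comp hsub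
    have h1' := (hF (-a) _ (lim1 n hn1 ha0.le ha1)).comp hsub
    have e0 : Real.exp (-(0 : ℝ) ^ 2 / 2) = 1 := by simp
    have e1 : Real.exp (-(-a) ^ 2 / 2) = Real.exp (-(a ^ 2 / 2)) := by ring_nf
    rw [e0] at h0'
    rw [e1] at h1'
    have h0'' := h0'.const_mul (Real.exp (-(a * a)))
    have hpos : ∀ᶠ k : ℕ in atTop, (1 / 2 : ℝ) <
        ((fun d => F d * (kpq n d (h0 n d - (n + 1) - mid n d) n : ℝ)) ∘ fun k : ℕ => 2 * k) k :=
      h0'.eventually (lt_mem_nhds (by norm_num))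
    have hle : ∀ᶠ k : ℕ in atTop,
        ((fun d => F d * (kpq n d (h0 n d - (n + 1) - mid n d - ss n a d) n : ℝ)) ∘
          fun k : ℕ => 2 * k) k ≤
        Real.exp (-(a * a)) *
          ((fun d => F d * (kpq n d (h0 n d - (n + 1) - mid n d) n : ℝ)) ∘
            fun k : ℕ => 2 * k) k := by
      have hlarge := ((tendsto_h0 n hn1).comp hsub).eventually_ge_atTop ((8 / a) ^ 2 + 2)
      filter_upwards [hpos, eventually_ge_atTop (n + 1), hsub.eventually (room n hn1 ha0.le ha1),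
        hlarge] with k h1 hk hroom hbig
      simp only [Function.comp_apply] at h1 hbig ⊢
      have hH1 : 1 ≤ h0 n (2 * k) := h0_pos (2 * k)
      have hsge := ss_ge n a (2 * k)
      have hdec : (kpq n (2 * k) (h0 n (2 * k) - (n + 1) - mid n (2 * k) - ss n a (2 * k)) n : ℝ) ≤
          Real.exp (-(a * a)) * kpq n (2 * k) (h0 n (2 * k) - (n + 1) - mid n (2 * k)) n := by
        have h2 := decay hG hk (p := h0 n (2 * k) - (n + 1) - mid n (2 * k) - ss n a (2 * k))
          (q := h0 n (2 * k) - (n + 1) - mid n (2 * k)) (a := a)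
          (by rw [mid] at hroom ⊢; omega) (by omega) ha0.le ?_
        · rw [pow_zero, Real.sqrt_one, mul_one, ← ha] at h2
          exact h2
        · have e3 : ((h0 n (2 * k) - (n + 1) - mid n (2 * k) - ss n a (2 * k) : ℕ) : ℝ) =
              ((h0 n (2 * k) - (n + 1) - mid n (2 * k) : ℕ) : ℝ) - ss n a (2 * k) :=
            Nat.cast_sub (by omega)
          rw [e3]
          set H : ℝ := (h0 n (2 * k) : ℝ) with hHd
          have hx : √H / 2 ≤ √(rr n (2 * k)) := by
            rw [rr, ← hHd]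
            apply Real.le_sqrt_of_sq_le
            rw [div_pow, Real.sq_sqrt (by positivity)]
            have : (0 : ℝ) ≤ (8 / a) ^ 2 := by positivity
            linarith
          have hy : 8 / a ≤ √H := by
            apply Real.le_sqrt_of_sq_le
            linarith
          rw [div_le_iff₀ ha0] at hy
          have hz : a * (√H / 2) ≤ a * √(rr n (2 * k)) := mul_le_mul_of_nonneg_left hx ha0.le
          linarith
      have hFpos : 0 ≤ F (2 * k) := by
        by_contra hneg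
        push Not at hneg
        have := mul_nonpos_of_nonpos_of_nonneg hneg.le
          (Nat.cast_nonneg (α := ℝ) (kpq n (2 * k) (h0 n (2 * k) - (n + 1) - mid n (2 * k)) n))
        linarith
      calc F (2 * k) * (kpq n (2 * k)
            (h0 n (2 * k) - (n + 1) - mid n (2 * k) - ss n a (2 * k)) n : ℝ)
          ≤ F (2 * k) * (Real.exp (-(a * a)) *
              kpq n (2 * k) (h0 n (2 * k) - (n + 1) - mid n (2 * k)) n) :=
            mul_le_mul_of_nonneg_left hdec hFpos
        _ = _ := by ring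
    have hfin := le_of_tendsto_of_tendsto h1' h0'' hle
    rw [mul_one] at hfin
    have h5 := Real.exp_le_exp.mp hfin
    nlinarith
  · have hG : ∃ c : Fin (n + 1) → Fin 3, Gd c 1 := exists_Gd (by omega) (by omega)
    have hn1 : 1 ≤ n := by omega
    have hsub : Tendsto (fun k : ℕ => 2 * k) atTop atTop :=
      tendsto_atTop_mono (fun l => by simp only [id_eq]; omega) tendsto_id
    have hlim : Tendsto (fun k : ℕ => Real.exp (-(a * Cn n * √((k : ℝ) ^ 1)))) atTop (𝓝 0) := by
      apply Real.tendsto_exp_neg_atTop_nhds_zero.comp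
      apply Tendsto.const_mul_atTop (mul_pos ha (Cn_pos n))
      simp only [pow_one]
      exact Real.tendsto_sqrt_atTop.comp tendsto_natCast_atTop_atTop
    have hlarge := ((tendsto_h0 n hn1).comp hsub).eventually_ge_atTop 2
    filter_upwards [hlim.eventually (gt_mem_nhds hη), eventually_ge_atTop (n + 1), hlarge]
      with k hexp hk hbig p q hq hpq
    simp only [Function.comp_apply] at hbig
    have hx : √(h0 n (2 * k) : ℝ) / 8 ≤ √(rr n (2 * k)) := by
      rw [rr]
      apply Real.le_sqrt_of_sq_le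
      rw [div_pow, Real.sq_sqrt (by positivity)]
      linarith
    have h1 : 2 * q + 2 * n + 1 ≤ h0 n (2 * k) := by
      rw [rr] at hq
      have : ((2 * q + 2 * n + 1 : ℕ) : ℝ) ≤ h0 n (2 * k) := by push_cast; linarith
      exact_mod_cast this
    have h2 : 0 ≤ a * √(rr n (2 * k)) := by positivity
    have h3 : p ≤ q := by
      have : (p : ℝ) ≤ q := by linarith
      exact_mod_cast this
    have h4 := decay hG hk h1 h3 ha.le (by
      have := mul_le_mul_of_nonneg_left hx ha.le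
      linarith)
    exact h4.trans (mul_le_mul_of_nonneg_right hexp.le (Nat.cast_nonneg _))

end Pool.Agent.Results.MP_c48073_ag.AllLargeDimensions
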